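import Mathlib
import Pool.Agent.Helper48.AA.Goals

/-! Packet RGB of project AA. -/

set_option autoImplicit false

open Finset

open scoped Classical

namespace Pool.Agent.Helper78.AA

open Pool.Agent.Helper48.AA
open Pool.Agent.Helper10.CB (digit_lt div_not_dvd)

theorem cb_mod {q k : ℕ} (hq : q.Prime) (hlt : 2 * (k % q) < q) :
    Nat.centralBinom k ≡ Nat.centralBinom (k / q) * Nat.centralBinom (k % q) [MOD q] := by
  have := Fact.mk hq
  have h1 := Choose.choose_modEq_choose_mod_mul_choose_div_nat (n := 2 * k) (k := k) (p := q)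
  have hdm := Nat.div_add_mod k q
  have h3 : 2 * k = 2 * (k % q) + q * (2 * (k / q)) := by
    have h4 : q * (2 * (k / q)) = 2 * (q * (k / q)) := by ring
    omega
  have h2 : (2 * k) / q = 2 * (k / q) := by
    rw [h3, Nat.add_mul_div_left _ _ hq.pos, Nat.div_eq_of_lt hlt, zero_add]
  have h5 : (2 * k) % q = 2 * (k % q) := by
    conv_lhs => rw [h3]
    rw [Nat.add_mul_mod_self_left, Nat.mod_eq_of_lt hlt]
  rw [h2, h5] at h1
  rw [Nat.centralBinom_eq_two_mul_choose, Nat.centralBinom_eq_two_mul_choose,
    Nat.centralBinom_eq_two_mul_choose]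
  exact h1.trans (by rw [mul_comm])

theorem fiber (hR : StmtRLB) {q S j g len k' : ℕ} {F : Finset ℕ} (hq : q.Prime) (hS : 2 ≤ S)
    (hSq : S ^ 3 ≤ q) (hj : 1 ≤ j) (hjS : j ≤ S) (hg : ¬ q ∣ g)
    (hF : ∀ k ∈ F, ¬ q ∣ Nat.centralBinom k ∧ ¬ q ∣ Nat.centralBinom (k + j) ∧
      Nat.centralBinom (k + j) ≡ Nat.centralBinom k + g [MOD q])
    (hk : ∀ k ∈ F, k / q = k' ∧ k % q < len) :
    F.card * S ≤ len + S + 3 * S ^ 3 := by
  have h4 : 4 * S ≤ q := by
    have : 4 * S ≤ S ^ 3 := by nlinarith [Nat.mul_le_mul hS hS]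
    omega
  have hb := hR q S len j (Nat.centralBinom k') g hq (by omega) hj (by omega) hg
  have hc : F.card ≤ ((range len).filter (fun a => 2 * (a + j) < q ∧
      Nat.centralBinom k' * Nat.centralBinom (a + j) ≡
        Nat.centralBinom k' * Nat.centralBinom a + g [MOD q])).card := by
    refine Finset.card_le_card_of_injOn (fun k => k % q) ?_ ?_
    · intro k hkF
      have hkF' : k ∈ F := hkF
      obtain ⟨h1, h2, h3⟩ := hF k hkF'
      obtain ⟨h5, h6⟩ := hk k hkF'
      have d1 := digit_lt hq h1
      have d2 := digit_lt hq h2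
      have hdm := Nat.div_add_mod k q
      have hmod : (k + j) % q = k % q + j := by
        have : k + j = (k % q + j) + q * (k / q) := by omega
        rw [this, Nat.add_mul_mod_self_left, Nat.mod_eq_of_lt (by omega)]
      have hdiv : (k + j) / q = k / q := by
        have : k + j = (k % q + j) + q * (k / q) := by omega
        rw [this, Nat.add_mul_div_left _ _ hq.pos, Nat.div_eq_of_lt (by omega), zero_add]
      have m1 := cb_mod hq d1
      have m2 := cb_mod hq d2
      rw [hmod] at d2
      rw [hmod, hdiv, h5] at m2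
      rw [h5] at m1
      simp only [Finset.coe_filter, Finset.mem_range, Set.mem_setOf_eq]
      exact ⟨h6, d2, m2.symm.trans (h3.trans (Nat.ModEq.add_right g m1))⟩
    · intro a ha b hb' hab
      have ha' := hk a ha
      have hb2 := hk b hb'
      have e1 := Nat.div_add_mod a q
      have e2 := Nat.div_add_mod b q
      have hab' : a % q = b % q := hab
      rw [ha'.1] at e1
      rw [hb2.1] at e2
      omega
  have h6 : len / S * S ≤ len := Nat.div_mul_le_self len S
  have h7 : j * S * S ≤ S * S * S := by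
    exact Nat.mul_le_mul_right S (Nat.mul_le_mul_right S hjS)
  calc F.card * S ≤ (len / S + 1 + S ^ 2 + 2 * j * S) * S := Nat.mul_le_mul_right S (hc.trans hb)
    _ = len / S * S + S + S ^ 3 + 2 * (j * S * S) := by ring
    _ ≤ len + S + S ^ 3 + 2 * (S * S * S) := by omega
    _ = len + S + 3 * S ^ 3 := by ring

theorem gRGB : StmtRLB → StmtRGB := by
  intro hR q S K j g hq hS hSq hSK hj hjS hg
  rcases Nat.lt_or_ge 1 S with hS2 | hS1
  swap
  · have : S = 1 := by omega
    subst this
    rw [mul_one]
    refine (Finset.card_filter_le _ _).trans ?_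
    rw [Finset.card_range]
    omega
  set F := (range K).filter (fun k => ¬ q ∣ Nat.centralBinom k ∧ ¬ q ∣ Nat.centralBinom (k + j) ∧
    Nat.centralBinom (k + j) ≡ Nat.centralBinom k + g [MOD q]) with hFdef
  have hFm : ∀ k ∈ F, k < K ∧ (¬ q ∣ Nat.centralBinom k ∧ ¬ q ∣ Nat.centralBinom (k + j) ∧
      Nat.centralBinom (k + j) ≡ Nat.centralBinom k + g [MOD q]) := by
    intro k hk
    rw [hFdef, Finset.mem_filter, Finset.mem_range] at hk
    exact hk
  have hSS : S ≤ S ^ 3 := by
    calc S = S ^ 1 := (pow_one S).symm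
      _ ≤ S ^ 3 := Nat.pow_le_pow_right (by omega) (by omega)
  rcases Nat.lt_or_ge K q with hKq | hqK
  · have := fiber hR (len := K) (k' := 0) (F := F) hq hS2 hSq hj hjS hg (fun k hk => (hFm k hk).2)
      (fun k hk => by
        have h1 := (hFm k hk).1
        exact ⟨Nat.div_eq_of_lt (by omega), by rw [Nat.mod_eq_of_lt (by omega)]; exact h1⟩)
    omega
  · have hmap : ∀ k ∈ F, k / q ∈ range (K / q + 1) := by
      intro k hk
      rw [Finset.mem_range]
      have := Nat.div_le_div_right (c := q) (hFm k hk).1.le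
      omega
    rw [Finset.card_eq_sum_card_fiberwise hmap, Finset.sum_mul]
    have hfib : ∀ k' ∈ range (K / q + 1), (F.filter (fun k => k / q = k')).card * S ≤ 5 * q := by
      intro k' _
      have := fiber hR (len := (q + 1) / 2) (k' := k') (F := F.filter (fun k => k / q = k')) hq hS2 hSq
        hj hjS hg (fun k hk => (hFm k (Finset.mem_filter.mp hk).1).2)
        (fun k hk => by
          obtain ⟨h1, h2⟩ := Finset.mem_filter.mp hk
          have := digit_lt hq (hFm k h1).2.1
          exact ⟨h2, by omega⟩)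
      have := hq.two_le
      omega
    refine (Finset.sum_le_sum hfib).trans ?_
    rw [Finset.sum_const, Finset.card_range, smul_eq_mul]
    have h8 : K / q * q ≤ K := Nat.div_mul_le_self K q
    calc (K / q + 1) * (5 * q) = 5 * (K / q * q) + 5 * q := by ring
      _ ≤ 16 * K := by omega

end Pool.Agent.Helper78.AA
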